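import Pool.Agent.Helper69.ES.DefsR

/-!
# Project ES, block R1r: from the cells to the points, with a rate
-/

set_option autoImplicit false

open MeasureTheory Set Filter Topology
open Pool.Agent.Helper57.Zeta Pool.Agent.Helper57.PC Pool.Agent.Helper57.LH Pool.Agent.Helper78.SG
open Pool.Agent.Helper4.SH Pool.Agent.Helper69.PP Pool.Agent.Helper22.SI
open Pool.Agent.Helper69
open Pool.Agent.Helper69.ES (lf St InW Clear)

namespace Pool.Agent.Helper14.ES

/-- if `t` is bad, the cell after the one of `t` is clear (cells of length `K/log x`, stretch `2K/log x`) -/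
theorem bad_vol {c K x B : ℝ} (hK : 0 < K) (hx : 1 < x) (hB : 0 ≤ B)
    (h : ∀ J : Finset ℕ, InW K x J → Clear c K x J → (J.card : ℝ) * (K / Real.log x) ≤ B) :
    volume {t : ℝ | t ∈ Icc (11 * x / 8) (13 * x / 8) ∧
        ∀ ρ : ZS, t ≤ (ρ : ℂ).im → (ρ : ℂ).im ≤ t + 2 * K / Real.log x → ¬ SM.CloseC c x ρ} ≤
      ENNReal.ofReal (B + 2 * (K / Real.log x)) := by
  have hx0 : 0 < x := by linarith
  have hL0 : 0 < Real.log x := Real.log_pos hx
  set s : ℝ := K / Real.log x with hs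
  have hs0 : 0 < s := by positivity
  have hlf : ∀ j : ℕ, lf K x j = 11 * x / 8 + j * s := fun j => rfl
  classical
  set N : ℕ := ⌊13 * x / 8 / s⌋₊ with hN
  set J : Finset ℕ := (Finset.range N).filter (fun i => lf K x (i + 1) ≤ 13 * x / 8 ∧
    ∀ ρ : ZS, lf K x i ≤ (ρ : ℂ).im → (ρ : ℂ).im ≤ lf K x (i + 1) → ¬ SM.CloseC c x ρ) with hJ
  have hInW : InW K x J := fun j hj => (Finset.mem_filter.1 hj).2.1
  have hCl : Clear c K x J := fun j hj => (Finset.mem_filter.1 hj).2.2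
  have hcard := h J hInW hCl
  have hsub : {t : ℝ | t ∈ Icc (11 * x / 8) (13 * x / 8) ∧
        ∀ ρ : ZS, t ≤ (ρ : ℂ).im → (ρ : ℂ).im ≤ t + 2 * K / Real.log x → ¬ SM.CloseC c x ρ} ⊆
      (⋃ i ∈ J, Icc (lf K x i - s) (lf K x i)) ∪ Icc (13 * x / 8 - 2 * s) (13 * x / 8) := by
    rintro t ⟨⟨ht1, ht2⟩, ht3⟩
    have hq0 : 0 ≤ (t - 11 * x / 8) / s := div_nonneg (by linarith) hs0.le
    have hj1 := Nat.floor_le hq0
    have hj2 := Nat.lt_floor_add_one ((t - 11 * x / 8) / s)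
    set j : ℕ := ⌊(t - 11 * x / 8) / s⌋₊ with hj
    rw [le_div_iff₀ hs0] at hj1
    rw [div_lt_iff₀ hs0] at hj2
    by_cases hcase : lf K x (j + 1 + 1) ≤ 13 * x / 8
    · left
      have hc2 := hcase
      rw [hlf] at hc2
      push_cast at hc2
      refine mem_iUnion₂.2 ⟨j + 1, ?_, ?_⟩
      · rw [hJ, Finset.mem_filter, Finset.mem_range]
        refine ⟨?_, hcase, ?_⟩
        · have h1 : (((j + 1 + 1 : ℕ)) : ℝ) ≤ 13 * x / 8 / s := by
            rw [le_div_iff₀ hs0]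
            push_cast
            linarith
          have h2 := Nat.le_floor h1
          omega
        · intro ρ h1 h2
          rw [hlf] at h1 h2
          push_cast at h1 h2
          refine ht3 ρ (by linarith) ?_
          have h3 : 2 * K / Real.log x = 2 * s := by rw [hs]; ring
          rw [h3]
          linarith
      · rw [hlf]
        push_cast
        exact ⟨by linarith, by linarith⟩
    · right
      rw [not_le, hlf] at hcase
      push_cast at hcase
      exact ⟨by linarith, ht2⟩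
  refine (measure_mono hsub).trans ((measure_union_le _ _).trans ?_)
  have h1 : volume (⋃ i ∈ J, Icc (lf K x i - s) (lf K x i)) ≤ ENNReal.ofReal (J.card * s) := by
    refine (measure_biUnion_finset_le _ _).trans ?_
    have h2 : ∀ i ∈ J, volume (Icc (lf K x i - s) (lf K x i)) = ENNReal.ofReal s := by
      intro i _
      rw [Real.volume_Icc]
      congr 1
      ring
    rw [Finset.sum_congr rfl h2, Finset.sum_const, nsmul_eq_mul, ENNReal.ofReal_mul (by positivity), ENNReal.ofReal_natCast]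
  have h2 : volume (Icc (13 * x / 8 - 2 * s) (13 * x / 8)) = ENNReal.ofReal (2 * s) := by
    rw [Real.volume_Icc]
    congr 1
    ring
  rw [h2]
  refine (add_le_add_left h1 _).trans ?_
  rw [← ENNReal.ofReal_add (by positivity) (by positivity)]
  exact ENNReal.ofReal_le_ofReal (by linarith)

/-- R1r, over cells_rate -/
theorem bad_rate_of (cells_rate : ∀ {c : ℝ} (_ : 0 < c) (_ : c < 1) (_ : 103 ≤ c * (103 + 97 * (1 / 2))) (_ : c * (1 / 2) ≤ 103 / 200),
      ∃ C κ : ℝ, 0 < C ∧ 0 < κ ∧ ∀ K : ℝ, 1 ≤ K → ∀ᶠ x : ℝ in atTop, ∀ J : Finset ℕ, InW K x J → Clear c K x J →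
      (J.card : ℝ) * (K / Real.log x) ≤ C * K ^ (-κ) * x)
    {c : ℝ} (hc : 0 < c) (hc1 : c < 1) (hcb : 103 ≤ c * (103 + 97 * (1 / 2))) (hcb1 : c * (1 / 2) ≤ 103 / 200) :
    ∃ C κ : ℝ, 0 < C ∧ 0 < κ ∧ ∀ K : ℝ, 1 ≤ K → ∀ᶠ x : ℝ in atTop,
      volume {t : ℝ | t ∈ Icc (11 * x / 8) (13 * x / 8) ∧
        ∀ ρ : ZS, t ≤ (ρ : ℂ).im → (ρ : ℂ).im ≤ t + K / Real.log x → ¬ SM.CloseC c x ρ} ≤
        ENNReal.ofReal (C * K ^ (-κ) * x) := by
  obtain ⟨C, κ, hC, hκ, h⟩ := cells_rate hc hc1 hcb hcb1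
  have h2κ : (1 : ℝ) ≤ 2 ^ κ := Real.one_le_rpow (by norm_num) hκ.le
  refine ⟨C * 2 ^ κ + 1 + 2 ^ κ, κ, by positivity, hκ, fun K hK => ?_⟩
  have hK0 : 0 < K := by linarith
  have hKκ : 0 < K ^ (-κ) := Real.rpow_pos_of_pos hK0 _
  rcases lt_or_ge K 2 with hK2 | hK2
  · -- trivial
    filter_upwards [eventually_gt_atTop (0 : ℝ)] with x hx
    refine (measure_mono (fun t ht => ht.1)).trans ?_
    rw [Real.volume_Icc]
    refine ENNReal.ofReal_le_ofReal ?_
    have h1 : (1 : ℝ) ≤ 2 ^ κ * K ^ (-κ) := by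
      rw [Real.rpow_neg hK0.le, ← div_eq_mul_inv, one_le_div (Real.rpow_pos_of_pos hK0 _)]
      exact Real.rpow_le_rpow hK0.le hK2.le hκ.le
    have h2 : 0 ≤ (C * 2 ^ κ + 1) * K ^ (-κ) := by positivity
    have h3 : 1 * x ≤ (C * 2 ^ κ + 1 + 2 ^ κ) * K ^ (-κ) * x := by
      refine mul_le_mul_of_nonneg_right ?_ hx.le
      calc (1 : ℝ) ≤ 2 ^ κ * K ^ (-κ) := h1
        _ ≤ (C * 2 ^ κ + 1) * K ^ (-κ) + 2 ^ κ * K ^ (-κ) := by linarith
        _ = _ := by ring
    linarith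
  · filter_upwards [h (K / 2) (by linarith), eventually_ge_atTop (Real.exp 1), eventually_ge_atTop (K / K ^ (-κ))] with x hx hx1 hx2
    have hx0 : 0 < x := lt_of_lt_of_le (Real.exp_pos 1) hx1
    have hx1' : 1 < x := lt_of_lt_of_le (Real.one_lt_exp_iff.2 one_pos) hx1
    have hL : 1 ≤ Real.log x := by
      rw [Real.le_log_iff_exp_le hx0]
      exact hx1
    have hK2p : 0 < (K / 2) ^ (-κ) := Real.rpow_pos_of_pos (by linarith) _
    have h1 := bad_vol (c := c) (by linarith : 0 < K / 2) hx1' (by positivity) hx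
    have h2 : 2 * (K / 2) / Real.log x = K / Real.log x := by ring
    rw [h2] at h1
    refine h1.trans (ENNReal.ofReal_le_ofReal ?_)
    have h3 : (K / 2) ^ (-κ) = 2 ^ κ * K ^ (-κ) := by
      rw [Real.div_rpow hK0.le (by norm_num), Real.rpow_neg (by norm_num : (0 : ℝ) ≤ 2), div_inv_eq_mul, mul_comm]
    have h4 : 2 * (K / 2 / Real.log x) ≤ K := by
      have h5 : 2 * (K / 2 / Real.log x) = K / Real.log x := by ring
      rw [h5]
      exact div_le_self hK0.le hL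
    have h5 : K ≤ K ^ (-κ) * x := by
      rw [div_le_iff₀ hKκ] at hx2
      linarith
    have h6 : 0 ≤ 2 ^ κ * K ^ (-κ) * x := by positivity
    rw [h3]
    calc C * (2 ^ κ * K ^ (-κ)) * x + 2 * (K / 2 / Real.log x) ≤ C * (2 ^ κ * K ^ (-κ)) * x + K ^ (-κ) * x := by linarith
      _ ≤ C * (2 ^ κ * K ^ (-κ)) * x + K ^ (-κ) * x + 2 ^ κ * K ^ (-κ) * x := by linarith
      _ = _ := by ring

end Pool.Agent.Helper14.ES
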